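import Pool.Agent.H29.FX.Targets

/-!
Rows PID and FNB of the board tfx (MP_7ecdd4_nt).
-/

set_option autoImplicit false

open Finset MvPolynomial

namespace Pool.Agent.H91.FX

open Pool.Agent.H29.FX Pool.Agent.H38.AE.Statement

theorem pid_aux {n : ℕ} (e : Fin n → ℕ) (D : Dr n) (he : ∀ v, 1 ≤ e v) (F : Finset (Fin n)) :
    (∏ v, (X v : Pl n)) * D (∏ v ∈ F, X v ^ e v) = (∏ v ∈ F, X v ^ e v) *
      ∑ v ∈ F, C (e v : ℤ) * D (X v) * ∏ w ∈ univ.erase v, X w := by
  classical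
  induction F using Finset.induction_on with
  | empty => simp
  | insert v F hv ih =>
    rw [prod_insert hv, sum_insert hv, Derivation.leibniz, Derivation.leibniz_pow, mul_add]
    simp only [smul_eq_mul, nsmul_eq_mul]
    have h1 : (∏ v, (X v : Pl n)) = X v * ∏ w ∈ univ.erase v, X w :=
      (mul_prod_erase univ (fun v => (X v : Pl n)) (mem_univ v)).symm
    have h2 : (X v : Pl n) ^ e v = X v * X v ^ (e v - 1) := by
      rw [← pow_succ', Nat.sub_add_cancel (he v)]
    have h3 : (C ((e v : ℕ) : ℤ) : Pl n) = ((e v : ℕ) : Pl n) := by simp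
    have h4 : (∏ v, (X v : Pl n)) * (X v ^ e v * D (∏ v ∈ F, X v ^ e v)) =
        X v ^ e v * ((∏ v ∈ F, X v ^ e v) *
          ∑ v ∈ F, C (e v : ℤ) * D (X v) * ∏ w ∈ univ.erase v, X w) := by
      rw [← ih]
      ring
    rw [h4, h1, h2, h3]
    ring

theorem pf_PID : T_PID := by
  intro n pt e D a he
  exact pid_aux e D he _

theorem pf_FNB (hFNA : T_FNA) (hRPR : T_RPR) : T_FNB := by
  intro k η hη
  obtain ⟨M, c, C, hM, hc, hC, h⟩ := hFNA k η hη
  refine ⟨M, c, 8 * C, hM, hc, by positivity, ?_⟩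
  intro Y hY
  classical
  set G : Finset (Fin 3 → ℤ) := Fintype.piFinset (fun _ : Fin 3 => ({1, -1} : Finset ℤ)) with hG
  have hcard : G.card = 8 := by
    rw [hG, Fintype.card_piFinset]
    simp
  set W : Finset (Fin 3 → ℤ) := G.biUnion (fun u => ((h Y u hY).1).toFinset) with hW
  have hsub : FewExponents k M 1 Y (Real.exp (Y ^ c)) ⊆ (W : Set (Fin 3 → ℤ)) := by
    rintro x ⟨hx, hr, hb, hs, Q, hQ1, hQ2, hQ3⟩
    have hQ : Q = 1 := le_antisymm (by exact_mod_cast hQ2) hQ1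
    subst hQ
    obtain ⟨u, hu, hp⟩ := hRPR k 1 Y x hx le_rfl hr hQ3
    rw [hW, Finset.mem_coe, mem_biUnion]
    refine ⟨u, ?_, ?_⟩
    · rw [hG, Fintype.mem_piFinset]
      intro i
      obtain ⟨h1, -, h2⟩ := hu i
      have h3 : (u i).natAbs = 1 := by
        rw [Nat.eq_one_iff_not_exists_prime_dvd]
        intro p hp1 hp2
        exact hp1.one_lt.ne' (Nat.dvd_one.1 (h2 p hp1 (Int.natCast_dvd.2 hp2)))
      rw [Finset.mem_insert, Finset.mem_singleton]
      exact Int.natAbs_eq_iff.1 h3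
    · rw [Set.Finite.mem_toFinset]
      exact ⟨hx, hp, hb, hs⟩
  have hWc : (W.card : ℝ) ≤ 8 * C * Y ^ η := by
    have h1 : (W.card : ℝ) ≤ ∑ u ∈ G, (((h Y u hY).1).toFinset.card : ℝ) := by
      exact_mod_cast card_biUnion_le
    refine h1.trans ?_
    have h2 : ∀ u ∈ G, (((h Y u hY).1).toFinset.card : ℝ) ≤ C * Y ^ η := by
      intro u _
      have h3 := (h Y u hY).2
      rwa [Set.ncard_eq_toFinset_card _ (h Y u hY).1] at h3
    refine (sum_le_card_nsmul _ _ _ h2).trans (le_of_eq ?_)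
    rw [hcard]
    simp only [nsmul_eq_mul]
    push_cast
    ring
  refine ⟨W.finite_toSet.subset hsub, ?_⟩
  refine le_trans ?_ hWc
  have h4 := Set.ncard_le_ncard hsub W.finite_toSet
  rw [Set.ncard_coe_finset] at h4
  exact_mod_cast h4

end Pool.Agent.H91.FX
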