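import Pool.Agent.H29.FX.TargetsQ

/-!
Row LCQ of the board tfx (MP_7ecdd4_nt): the Taylor formula for integral points near a tower,
after Pool.Agent.H41.TFX.LOC.
-/

set_option autoImplicit false

open Finset MvPolynomial
open Pool.Agent.H29.FX

namespace Pool.Agent.H91.FX

theorem lcq_cast {n : ℕ} (m : ℕ) (x : Fin n → ℤ) (f : Pl n) :
    aeval (fun v => ((x v : ℤ) : ZMod m)) f = ((eval x f : ℤ) : ZMod m) := by
  induction f using MvPolynomial.induction_on with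
  | C a => simp
  | add p q hp hq => simp only [map_add, hp, hq, Int.cast_add]
  | mul_X p i hp => simp only [map_mul, hp, aeval_X, eval_X, Int.cast_mul]

/-- points which differ by torsion -/
theorem lcq_tor {n m : ℕ} (c : ZMod m) (z y : Fin n → ZMod m)
    (h : ∀ w, c * (z w - y w) = 0) (f : Pl n) : c * (aeval z f - aeval y f) = 0 := by
  induction f using MvPolynomial.induction_on with
  | C a => simp
  | add p q hp hq =>
    rw [map_add, map_add]
    linear_combination hp + hq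
  | mul_X p i hp =>
    rw [map_mul, map_mul, aeval_X, aeval_X]
    linear_combination z i * hp + aeval y p * h i

theorem pf_LCQ (hLOQ : T_LOQ) (hFCQ : T_FCQ) (hALG : T_ALG) (hNUQ : T_NUQ) : T_LCQ := by
  intro n Q j s v L x y hQ hsq hvj hl hG hL hxy hJ
  have hlen : L.length ≤ n := by
    have := (hALG n L hG).2.2.2.2
    omega
  have hzero : ∀ a : ℤ, ((Q : ℤ) ^ j) ^ s ∣ a → ((a : ℤ) : ZMod ((Q ^ j) ^ s)) = 0 := by
    intro a ha
    rw [CharP.intCast_eq_zero_iff (ZMod ((Q ^ j) ^ s)) ((Q ^ j) ^ s) a]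
    push_cast
    exact ha
  obtain ⟨t', ht1, ht2, ht3⟩ := hLOQ n Q j s v L (fun w => ((x w : ℤ) : ZMod ((Q ^ j) ^ s)))
    (fun w => ((y w : ℤ) : ZMod ((Q ^ j) ^ s))) hQ hvj hl hG
    (by
      intro w
      obtain ⟨e, he⟩ := hxy w
      refine ⟨(Q : ZMod ((Q ^ j) ^ s)) ^ ((n - L.length) * v) * ((e : ℤ) : ZMod ((Q ^ j) ^ s)), ?_⟩
      show ((y w : ℤ) : ZMod ((Q ^ j) ^ s)) - ((x w : ℤ) : ZMod ((Q ^ j) ^ s)) = _
      rw [← Int.cast_sub, he, ← mul_assoc, ← pow_add]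
      have e1 : j + (L.length + 1) * v + (n - L.length) * v = j + (n + 1) * v := by
        have e2 : ∀ a k b : ℕ, a + k = b → j + (a + 1) * v + k * v = j + (b + 1) * v := by
          intro a k b hb
          rw [← hb]
          ring
        exact e2 _ _ _ (by omega)
      rw [e1]
      push_cast
      rfl)
    (by
      intro q hq
      rw [lcq_cast, lcq_cast]
      exact ⟨hzero _ (hL q hq).1, hzero _ (hL q hq).2⟩)
    (by
      rw [lcq_cast]
      obtain ⟨κ, hκ⟩ := hNUQ Q v (j * s) (eval x (TJ L)) hsq hJ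
      refine ⟨((κ : ℤ) : ZMod ((Q ^ j) ^ s)), ?_⟩
      have h1 := hzero (eval x (TJ L) * κ - (Q : ℤ) ^ v) (by rw [← pow_mul]; exact hκ)
      push_cast at h1
      exact sub_eq_zero.1 h1)
  have hch : ∀ w, ∃ τ : ℤ, (w ∉ TI L → τ = 0) ∧
      t' w = (Q : ZMod ((Q ^ j) ^ s)) ^ j * ((τ : ℤ) : ZMod ((Q ^ j) ^ s)) := by
    intro w
    by_cases hw : w ∈ TI L
    · obtain ⟨b, hb⟩ := ht1 w
      obtain ⟨τ, rfl⟩ := ZMod.intCast_surjective b
      refine ⟨τ, fun h => absurd hw h, ?_⟩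
      rw [hb]
      push_cast
      rfl
    · exact ⟨0, fun _ => rfl, by rw [ht2 w hw, Int.cast_zero, mul_zero]⟩
  choose τ hτ1 hτ2 using hch
  refine ⟨τ, hτ1, fun f => ?_⟩
  have h2 := lcq_tor _ _ _ ht3 f
  rw [lcq_cast, hFCQ n (Q ^ j) s (TD L) t' _ f (Nat.one_le_pow _ _ (by omega))
    (fun l hl1 hl2 => hl l hl1 (hl1.dvd_of_dvd_pow hl2)) ht1] at h2
  have h3 : ts (Q ^ j) s (TD L) t' (fun w => ((x w : ℤ) : ZMod ((Q ^ j) ^ s))) f =
      ∑ α ∈ Fintype.piFinset (fun _ : Fin n => range s),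
        (∏ w, ((Q : ZMod ((Q ^ j) ^ s)) ^ j * ((τ w : ℤ) : ZMod ((Q ^ j) ^ s))) ^ α w *
          iv (Q ^ j) s (α w)) * ((eval x (dw (TD L) α f) : ℤ) : ZMod ((Q ^ j) ^ s)) := by
    unfold ts
    refine Finset.sum_congr rfl fun α _ => ?_
    rw [lcq_cast]
    congr 1
    exact Finset.prod_congr rfl fun w _ => by rw [hτ2]
  rw [h3] at h2
  have h4 : (Q : ZMod ((Q ^ j) ^ s)) ^ (2 * v * n) =
      (Q : ZMod ((Q ^ j) ^ s)) ^ (2 * v * (n - L.length)) *
        (Q : ZMod ((Q ^ j) ^ s)) ^ (2 * v * L.length) := by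
    rw [← pow_add]
    congr 1
    rw [← mul_add]
    congr 1
    omega
  rw [h4]
  linear_combination (-(Q : ZMod ((Q ^ j) ^ s)) ^ (2 * v * (n - L.length))) * h2

end Pool.Agent.H91.FX
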